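import Pool.Agent.J4H3.EQ.Stm
import Pool.Agent.J4H49.NG.Gro

/-!
# Project EQ (helper3): (CIR), the circle averages of `log |H_{-b}|`
-/

set_option autoImplicit false

namespace Pool.Agent.J4H49.EQ

open Complex MeasureTheory Filter Topology Set
open Pool.Agent.J4H49.NG
open Pool.Agent.J4H3.EQ
open Pool.Agent.J4H2.DN (Hd)

noncomputable section

lemma int_abs_sin : ∫ θ in (0 : ℝ)..(2 * Real.pi), |Real.sin θ| = 4 := by
  have h1 : ∫ θ in (0 : ℝ)..Real.pi, |Real.sin θ| = 2 := by
    have h0 : ∫ θ in (0 : ℝ)..Real.pi, Real.sin θ = 2 := by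
      rw [integral_sin, Real.cos_zero, Real.cos_pi]
      norm_num
    rw [← h0]
    refine intervalIntegral.integral_congr fun θ hθ => ?_
    rw [Set.uIcc_of_le Real.pi_pos.le] at hθ
    exact abs_of_nonneg (Real.sin_nonneg_of_nonneg_of_le_pi hθ.1 hθ.2)
  have h2 : ∫ θ in Real.pi..(2 * Real.pi), |Real.sin θ| = 2 := by
    have h3 := intervalIntegral.integral_comp_add_right (fun θ => |Real.sin θ|) Real.pi (a := 0) (b := Real.pi)
    rw [zero_add, show Real.pi + Real.pi = 2 * Real.pi by ring] at h3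
    rw [← h3, ← h1]
    refine intervalIntegral.integral_congr fun θ _ => ?_
    show |Real.sin (θ + Real.pi)| = |Real.sin θ|
    rw [Real.sin_add_pi, abs_neg]
  have hc : Continuous fun θ : ℝ => |Real.sin θ| := by fun_prop
  rw [← intervalIntegral.integral_add_adjacent_intervals (b := Real.pi) (hc.intervalIntegrable _ _)
    (hc.intervalIntegrable _ _), h1, h2]
  norm_num

lemma avg_im {A C R : ℝ} (hR : 0 < R) :
    Real.circleAverage (fun z : ℂ => A * |z.im| + C) 0 R = A * R * (2 / Real.pi) + C := by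
  rw [Real.circleAverage_def]
  have h1 : ∀ θ : ℝ, A * |(circleMap 0 R θ).im| + C = A * R * |Real.sin θ| + C := by
    intro θ
    rw [circleMap_zero, im_ofReal_mul, Complex.exp_ofReal_mul_I_im, abs_mul, abs_of_pos hR]
    ring
  simp_rw [h1]
  have hc : Continuous fun θ : ℝ => A * R * |Real.sin θ| := by fun_prop
  rw [intervalIntegral.integral_add (hc.intervalIntegrable _ _) (by simp), intervalIntegral.integral_const_mul,
    int_abs_sin, intervalIntegral.integral_const, smul_eq_mul, smul_eq_mul, sub_zero]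
  field_simp
  ring

/-- **(CIR)** -/
theorem t_CIR : J_CIR := by
  intro hU b ε hb hε
  obtain ⟨C, hC, hup⟩ := hU b (ε / 4) hb (by linarith)
  -- `R` large
  obtain ⟨R₁, hR₁⟩ := (Filter.tendsto_atTop.1 Real.tendsto_log_atTop (max 1 ((4 / ε) * (C + 1)))).exists_forall_of_atTop
  refine ⟨max R₁ (max 2 (4 / ε)), (le_max_left _ _).trans (le_max_right _ _), fun R hR => ?_⟩
  have hR2 : 2 ≤ R := (le_max_left _ _).trans ((le_max_right _ _).trans hR)
  have hR4 : 4 / ε ≤ R := (le_max_right _ _).trans ((le_max_right _ _).trans hR)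
  have hl := hR₁ R ((le_max_left _ _).trans hR)
  have hl1 : 1 ≤ Real.log R := (le_max_left _ _).trans hl
  have hlC : (4 / ε) * (C + 1) ≤ Real.log R := (le_max_right _ _).trans hl
  have hR0 : 0 < R := by linarith
  set A : ℝ := (1 / 4 + ε / 4) * Real.log (R + 2) with hA
  have hl2 : 0 ≤ Real.log (R + 2) := Real.log_nonneg (by linarith)
  have hA0 : 0 ≤ A := by positivity
  have h1 : Real.circleAverage (fun z => Real.log ‖Hd (-b) z‖) 0 R ≤
      Real.circleAverage (fun z : ℂ => A * |z.im| + C) 0 R := by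
    refine Real.circleAverage_mono ?_ ?_ ?_
    · refine MeromorphicOn.circleIntegrable_log_norm fun z _ => ?_
      exact ((Hd_diff hb).analyticAt z).meromorphicAt
    · have hc : Continuous fun z : ℂ => A * |z.im| + C := by fun_prop
      exact hc.continuousOn.circleIntegrable hR0.le
    · intro z hz
      have hzn : ‖z‖ = R := by
        rw [mem_sphere_zero_iff_norm, abs_of_pos hR0] at hz
        exact hz
      have him : |z.im| ≤ R := hzn ▸ abs_im_le_norm z
      have h2 : (1 / 4 + ε / 4) * |z.im| * Real.log (|z.im| + 2) ≤ A * |z.im| := by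
        have h3 : Real.log (|z.im| + 2) ≤ Real.log (R + 2) :=
          Real.log_le_log (by positivity) (by linarith)
        rw [hA]
        have h4 : 0 ≤ (1 / 4 + ε / 4) * |z.im| := by positivity
        nlinarith [mul_le_mul_of_nonneg_left h3 h4]
      show Real.log ‖Hd (-b) z‖ ≤ A * |z.im| + C
      by_cases h0 : Hd (-b) z = 0
      · rw [h0, norm_zero, Real.log_zero]
        positivity
      · have h5 := Real.log_le_log (norm_pos_iff.2 h0) (hup z)
        rw [Real.log_exp] at h5
        linarith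
  refine h1.trans ?_
  rw [avg_im hR0, hA]
  -- `log (R + 2) ≤ log R + 2 / R`
  have h6 : Real.log (R + 2) ≤ Real.log R + 2 / R := by
    have h7 : R + 2 = R * (1 + 2 / R) := by field_simp
    rw [h7, Real.log_mul hR0.ne' (by positivity)]
    have := Real.log_le_sub_one_of_pos (show 0 < 1 + 2 / R by positivity)
    linarith
  have hpi : 2 / Real.pi ≤ 1 := by
    rw [div_le_one Real.pi_pos]
    linarith [Real.pi_gt_three]
  have hpi0 : 0 < 2 / Real.pi := by positivity
  have h8 : (1 / 4 + ε / 4) * Real.log (R + 2) * R * (2 / Real.pi) ≤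
      (1 / 4 + ε / 4) * (Real.log R + 2 / R) * R * (2 / Real.pi) := by
    gcongr
  have h9 : (1 / 4 + ε / 4) * (Real.log R + 2 / R) * R * (2 / Real.pi) =
      1 / (2 * Real.pi) * R * Real.log R + ε / 4 * (2 / Real.pi) * (R * Real.log R) +
        (1 / 2 + ε / 2) * (2 / Real.pi) := by
    field_simp
    ring
  have h10 : ε / 4 * (2 / Real.pi) * (R * Real.log R) ≤ ε / 4 * 1 * (R * Real.log R) := by
    have : 0 ≤ R * Real.log R := by positivity
    gcongr
  have h11 : (1 / 2 + ε / 2) * (2 / Real.pi) ≤ (1 / 2 + ε / 2) * 1 := by gcongr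
  -- `C + 1 ≤ ε / 4 * log R`, `1 ≤ ε / 4 * R`
  have h12 : C + 1 ≤ ε / 4 * Real.log R := by
    have : ε / 4 * ((4 / ε) * (C + 1)) ≤ ε / 4 * Real.log R := mul_le_mul_of_nonneg_left hlC (by linarith)
    have h13 : ε / 4 * ((4 / ε) * (C + 1)) = C + 1 := by field_simp
    linarith
  have h14 : ε / 4 * Real.log R ≤ ε / 4 * (R * Real.log R) := by
    have : 1 * Real.log R ≤ R * Real.log R := mul_le_mul_of_nonneg_right (by linarith) (by linarith)
    nlinarith
  have h15 : ε / 4 * 1 ≤ ε / 4 * (R * Real.log R) := by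
    have : 1 * 1 ≤ R * Real.log R := mul_le_mul (by linarith) hl1 zero_le_one (by linarith)
    nlinarith
  have h16 : (1 / (2 * Real.pi) + ε) * R * Real.log R = 1 / (2 * Real.pi) * R * Real.log R +
      4 * (ε / 4 * (R * Real.log R)) := by ring
  rw [h16]
  have h17 : 0 ≤ ε / 4 * (R * Real.log R) := by positivity
  nlinarith [h8, h9, h10, h11, h12, h14, h15, h17]

end

end Pool.Agent.J4H49.EQ
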