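import Pool.Agent.J4H3.EQ.Stm
import Pool.Agent.J4H49.NG.Gro

/-!
# Project EQ (helper3): (UPH), the upper bound for `H_{-b}`
-/

set_option autoImplicit false

namespace Pool.Agent.J4H49.EQ

open Complex MeasureTheory Filter Topology Set
open Pool.Agent.J4H49.NG
open Pool.Agent.J4H3.EQ
open Pool.Agent.J4H2.DN (Hd)

noncomputable section

/-- `|H_{-b}(z)| ≤ m(y)`, `|Im z| ≤ y` -/
lemma Hd_le_im {b : ℝ} (hb : 0 < b) (z : ℂ) {y : ℝ} (hy : |z.im| ≤ y) :
    ‖Hd (-b) z‖ ≤ Helper242.RK.m 1 y := by
  rw [Hd_eq]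
  unfold Helper242.RK.m
  refine norm_integral_le_of_norm_le (Helper242.RK.integrable_cosh one_pos y) ?_
  refine (ae_restrict_iff' measurableSet_Ioi).2 (Eventually.of_forall fun t ht => ?_)
  have ht' : (0 : ℝ) < t := ht
  rw [norm_mul, norm_real, Real.norm_of_nonneg (kr_pos b t).le, Real.rpow_one]
  have h1 := Helper242.RK.norm_cos_le (z * t)
  rw [im_mul_ofReal] at h1
  have h2 : Real.cosh (z.im * t) ≤ Real.cosh (y * t) := by
    rw [Real.cosh_le_cosh, abs_mul, abs_mul]
    exact mul_le_mul_of_nonneg_right (hy.trans (le_abs_self y)) (abs_nonneg t)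
  exact mul_le_mul (kr_le hb t) (h1.trans h2) (norm_nonneg _) (Helper242.RK.Phi_pos t).le

/-- **(UPH)** -/
theorem t_UPH : S_UPH := by
  intro b ε hb hε
  obtain ⟨C, hC, hup⟩ := Helper242.RK.m_upper (α := 1) one_pos
  refine ⟨C * Real.exp (C / ε) + C, by positivity, fun z => ?_⟩
  have hy0 : 0 ≤ |z.im| := abs_nonneg _
  have hl0 : 0 ≤ Real.log (|z.im| + 2) := Real.log_nonneg (by linarith)
  rcases le_total 1 |z.im| with h1 | h1
  · refine (Hd_le_im hb z (le_refl _)).trans ((hup _ h1).trans (Real.exp_le_exp.2 ?_))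
    set y := |z.im| with hy
    have h2 : Real.log y ≤ Real.log (y + 2) := Real.log_le_log (by linarith) (by linarith)
    have h3 : y / 4 * Real.log y ≤ y / 4 * Real.log (y + 2) := mul_le_mul_of_nonneg_left h2 (by linarith)
    have h4 : C * y ≤ ε * y * Real.log (y + 2) + C * Real.exp (C / ε) := by
      rcases le_total (C / ε) (Real.log (y + 2)) with h5 | h5
      · have h6 : C ≤ ε * Real.log (y + 2) := by
          rw [div_le_iff₀ hε] at h5
          linarith
        have h7 : C * y ≤ ε * Real.log (y + 2) * y := mul_le_mul_of_nonneg_right h6 (by linarith)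
        have h8 : 0 ≤ C * Real.exp (C / ε) := by positivity
        nlinarith
      · have h6 : y + 2 ≤ Real.exp (C / ε) := by
          rw [← Real.log_le_iff_le_exp (by linarith)]
          exact h5
        have h7 : C * y ≤ C * Real.exp (C / ε) := mul_le_mul_of_nonneg_left (by linarith) hC.le
        have h8 : 0 ≤ ε * y * Real.log (y + 2) := by positivity
        linarith
    have h9 : (1 / 4 + ε) * y * Real.log (y + 2) = y / 4 * Real.log (y + 2) + ε * y * Real.log (y + 2) := by ring
    rw [h9]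
    linarith
  · refine (Hd_le_im hb z h1).trans ((hup 1 le_rfl).trans (Real.exp_le_exp.2 ?_))
    rw [Real.log_one]
    have h2 : 0 ≤ (1 / 4 + ε) * |z.im| * Real.log (|z.im| + 2) := by positivity
    have h8 : 0 ≤ C * Real.exp (C / ε) := by positivity
    linarith

end

end Pool.Agent.J4H49.EQ
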